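import Mathlib

set_option autoImplicit false

/-! Algebraic lemmas on locally finite groups. -/

namespace Pool.Agent.Y80.PS

open scoped commutatorElement

/-- The image of the subgroup `H` under the homomorphism `f` is locally finite: the image of every
subgroup generated by finitely many elements of `H` is finite. -/
def LFin {G A : Type*} [Group G] [Group A] (H : Subgroup G) (f : G →* A) : Prop :=
  ∀ S : Finset G, (S : Set G) ⊆ H → (f '' (Subgroup.closure (S : Set G) : Set G)).Finite

lemma fin_image_of_ker {K A B : Type*} [Group K] [Group A] [Group B] (f : K →* A) (g : K →* B)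
    (h : f.ker ≤ g.ker) (T : Set K) (hf : (f '' T).Finite) : (g '' T).Finite := by
  refine (hf.image (fun a => g (Function.invFun f a))).subset ?_
  rintro _ ⟨t, ht, rfl⟩
  refine ⟨f t, ⟨t, ht, rfl⟩, ?_⟩
  have h1 : f (Function.invFun f (f t)) = f t := Function.invFun_eq ⟨t, rfl⟩
  have h2 : (Function.invFun f (f t)) * t⁻¹ ∈ f.ker := by
    rw [MonoidHom.mem_ker, map_mul, h1, map_inv, mul_inv_cancel]
  have h3 := h h2
  rw [MonoidHom.mem_ker, map_mul, map_inv, mul_inv_eq_one] at h3
  exact h3

lemma LFin.of_ker {G A B : Type*} [Group G] [Group A] [Group B] {H : Subgroup G} {f : G →* A}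
    (hH : LFin H f) (g : G →* B) (h : f.ker ≤ g.ker) : LFin H g :=
  fun S hS => fin_image_of_ker f g h _ (hH S hS)

lemma LFin.mono {G A : Type*} [Group G] [Group A] {H H' : Subgroup G} {f : G →* A}
    (hH : LFin H f) (h : H' ≤ H) : LFin H' f :=
  fun S hS => hH S (hS.trans h)

/-- lifting along a surjection -/
lemma LFin.map {G A Q : Type*} [Group G] [Group A] [Group Q] {H : Subgroup G} (p : G →* Q)
    (f : Q →* A) (hH : LFin H (f.comp p)) : LFin (H.map p) f := by
  classical
  intro S hS
  have h1 : ∀ s ∈ S, ∃ g ∈ H, p g = s := fun s hs => hS hs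
  choose! l hl hl' using h1
  have h2 : p '' (((S.image l : Finset G)) : Set G) = (S : Set Q) := by
    ext q
    constructor
    · rintro ⟨g, hg, rfl⟩
      rw [Finset.mem_coe, Finset.mem_image] at hg
      obtain ⟨s, hs, rfl⟩ := hg
      rw [hl' s hs]; exact hs
    · intro hq
      exact ⟨l q, by rw [Finset.mem_coe, Finset.mem_image]; exact ⟨q, hq, rfl⟩, hl' q hq⟩
  have h3 := hH (S.image l) (by
    intro g hg
    rw [Finset.mem_coe, Finset.mem_image] at hg
    obtain ⟨s, hs, rfl⟩ := hg
    exact hl s hs)
  have h4 : (Subgroup.closure (S : Set Q) : Set Q) =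
      p '' (Subgroup.closure (((S.image l : Finset G)) : Set G) : Set G) := by
    rw [← h2, ← Subgroup.coe_map, MonoidHom.map_closure]
  rw [h4, ← Set.image_comp]
  exact h3

lemma LFin.comap {G A Q : Type*} [Group G] [Group A] [Group Q] {H : Subgroup Q} (p : G →* Q)
    (f : Q →* A) (hH : LFin H f) : LFin (H.comap p) (f.comp p) := by
  classical
  intro S hS
  have h3 := hH (S.image p) (by
    intro g hg
    rw [Finset.mem_coe, Finset.mem_image] at hg
    obtain ⟨s, hs, rfl⟩ := hg
    exact hS hs)
  have h4 : (Subgroup.closure (((S.image p : Finset Q)) : Set Q) : Set Q) =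
      p '' (Subgroup.closure (S : Set G) : Set G) := by
    rw [← Subgroup.coe_map, MonoidHom.map_closure, Finset.coe_image]
  rw [h4, ← Set.image_comp] at h3
  exact h3

/-- Extensions of locally finite groups by locally finite groups. -/
lemma LFin.ext {G A : Type*} [Group G] [Group A] {H : Subgroup G} (f : G →* A)
    (h1 : LFin H f) (h2 : LFin (H ⊓ f.ker) (MonoidHom.id G)) : LFin H (MonoidHom.id G) := by
  classical
  intro S hS
  have hf := h1 S hS
  set K := Subgroup.closure (S : Set G) with hK
  have hKH : K ≤ H := (Subgroup.closure_le H).2 hS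
  have hfg : Group.FG K := (Group.fg_iff_subgroup_fg K).2 ⟨S, rfl⟩
  -- the kernel in `K`
  let φ : K →* A := f.comp K.subtype
  have hr : Finite φ.range := by
    have : (φ.range : Set A) = f '' (K : Set G) := by
      ext a
      constructor
      · rintro ⟨k, rfl⟩; exact ⟨k, k.2, rfl⟩
      · rintro ⟨k, hk, rfl⟩; exact ⟨⟨k, hk⟩, rfl⟩
    have h' : (φ.range : Set A).Finite := by rw [this]; exact hf
    exact h'
  have hfi : φ.ker.FiniteIndex := Subgroup.finiteIndex_ker φ
  have hkfg : Group.FG φ.ker := Subgroup.fg_of_index_ne_zero φ.ker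
  obtain ⟨T, hT⟩ := (Group.fg_iff_subgroup_fg φ.ker).1 hkfg
  -- push to `G`
  have hL : (Subgroup.closure (((T.image K.subtype : Finset G)) : Set G)) =
      φ.ker.map K.subtype := by
    rw [← hT, MonoidHom.map_closure, Finset.coe_image]
  have hfinK : ((φ.ker.map K.subtype : Subgroup G) : Set G).Finite := by
    have := h2 (T.image K.subtype) (by
      intro g hg
      have hg' : g ∈ Subgroup.closure (((T.image K.subtype : Finset G)) : Set G) :=
        Subgroup.subset_closure hg
      rw [hL] at hg'
      obtain ⟨k, hk, rfl⟩ := hg'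
      exact ⟨hKH k.2, hk⟩)
    rw [hL] at this
    simpa using this
  have hfink : Finite φ.ker := by
    have h5 : ((φ.ker : Subgroup K) : Set K).Finite := by
      refine Set.Finite.of_finite_image (f := K.subtype) ?_ (Subtype.val_injective.injOn)
      rw [← Subgroup.coe_map]; exact hfinK
    exact h5
  have hfinKK : Finite K := by
    have : Finite (K ⧸ φ.ker) := Subgroup.finite_quotient_of_finiteIndex
    exact Finite.of_equiv _ (Subgroup.groupEquivQuotientProdSubgroup (s := φ.ker)).symm
  simpa using (Set.toFinite (K : Set G))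

/-- An abelian subgroup consisting of elements of finite order is locally finite. -/
lemma lfin_abelian {G : Type*} [Group G] (H : Subgroup G) (hc : ∀ x ∈ H, ∀ y ∈ H, x * y = y * x)
    (ho : ∀ x ∈ H, IsOfFinOrder x) : LFin H (MonoidHom.id G) := by
  intro S hS
  set K := Subgroup.closure (S : Set G) with hK
  have hKH : K ≤ H := (Subgroup.closure_le H).2 hS
  have hfg : Group.FG K := (Group.fg_iff_subgroup_fg K).2 ⟨S, rfl⟩
  let _ : CommGroup K := { (inferInstance : Group K) with
    mul_comm := fun x y => Subtype.ext (hc x (hKH x.2) y (hKH y.2)) }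
  have ht : IsMulTorsion K := by
    intro x
    exact Submonoid.isOfFinOrder_coe.1 (ho x (hKH x.2))
  have : Finite K := CommGroup.finite_of_fg_isMulTorsion K ht
  simpa using (Set.toFinite (K : Set G))

lemma LFin.isOfFinOrder {G : Type*} [Group G] {H : Subgroup G} (h : LFin H (MonoidHom.id G))
    {x : G} (hx : x ∈ H) : IsOfFinOrder x := by
  have h1 := h {x} (by simpa using hx)
  have h2 : (Subgroup.closure (({x} : Finset G) : Set G) : Set G).Finite := by simpa using h1
  have : Finite (Subgroup.closure (({x} : Finset G) : Set G)) := h2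
  have h3 : IsOfFinOrder (⟨x, Subgroup.subset_closure (by simp)⟩ :
      Subgroup.closure (({x} : Finset G) : Set G)) := isOfFinOrder_of_finite _
  exact Submonoid.isOfFinOrder_coe.2 h3

lemma LFin.exists_pow {G A : Type*} [Group G] [Group A] {H : Subgroup G} {f : G →* A}
    (h : LFin H f) {x : G} (hx : x ∈ H) : ∃ n : ℕ, 0 < n ∧ f (x ^ n) = 1 := by
  have h1 : LFin (H.map f) (MonoidHom.id A) := LFin.map f (MonoidHom.id A) h
  obtain ⟨n, hn, h2⟩ := isOfFinOrder_iff_pow_eq_one.1
    (LFin.isOfFinOrder h1 (Subgroup.mem_map_of_mem f hx))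
  exact ⟨n, hn, by rw [map_pow]; exact h2⟩

end Pool.Agent.Y80.PS
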