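import Mathlib
import Pool.Agent.Y80.PS.Alg
import Pool.Agent.Results.MP_6bba90_al.CentralQuotient

set_option autoImplicit false

/-! The primes which occur. -/

namespace Pool.Agent.Y80.PS

open Topology Set
open scoped commutatorElement

/-- some power of `g` with exponent prime to `p` is in `Z` -/
def PFree {G : Type*} [Group G] (p : ℕ) (H : Set G) (Z : Set G) : Prop :=
  ∀ g ∈ H, ∃ m : ℕ, ¬ p ∣ m ∧ g ^ m ∈ Z

section algebra

lemma index_center_le {G : Type*} [Group G] (p : ℕ) [hp : Fact p.Prime] (K : Subgroup G)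
    (hf : (QuotientGroup.mk' (Subgroup.center G) '' (K : Set G)).Finite)
    (h : PFree p (K : Set G) (Subgroup.center G : Set G)) :
    ¬ p ∣ (Subgroup.center K).index := by
  classical
  let φ : K →* G ⧸ Subgroup.center G := (QuotientGroup.mk' (Subgroup.center G)).comp K.subtype
  have hr : Finite φ.range := by
    have h1 : (φ.range : Set (G ⧸ Subgroup.center G)) =
        QuotientGroup.mk' (Subgroup.center G) '' (K : Set G) := by
      ext a
      constructor
      · rintro ⟨k, rfl⟩; exact ⟨k, k.2, rfl⟩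
      · rintro ⟨k, hk, rfl⟩; exact ⟨⟨k, hk⟩, rfl⟩
    have h' : (φ.range : Set (G ⧸ Subgroup.center G)).Finite := by rw [h1]; exact hf
    exact h'
  have hle : φ.ker ≤ Subgroup.center K := by
    intro x hx
    have hx' : (x : G) ∈ Subgroup.center G := (QuotientGroup.eq_one_iff (x : G)).1 hx
    rw [Subgroup.mem_center_iff]
    intro g
    exact Subtype.ext (Subgroup.mem_center_iff.1 hx' g)
  have hdvd : (Subgroup.center K).index ∣ φ.ker.index := Subgroup.index_dvd_of_le hle
  have hcard : φ.ker.index = Nat.card φ.range := Subgroup.index_ker φ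
  intro hpd
  have h1 : p ∣ Nat.card φ.range := by rw [← hcard]; exact hpd.trans hdvd
  obtain ⟨x, hx⟩ := exists_prime_orderOf_dvd_card' (G := φ.range) p h1
  obtain ⟨k, hk⟩ := x.2
  obtain ⟨m, hm, hm'⟩ := h k k.2
  have h2 : x ^ m = 1 := by
    apply Subtype.ext
    rw [Subgroup.coe_pow, ← hk, ← map_pow]
    exact (QuotientGroup.eq_one_iff _).2 hm'
  have h3 := orderOf_dvd_of_pow_eq_one h2
  rw [hx] at h3
  exact hm h3

lemma schur_p {K : Type*} [Group K] [Finite (commutatorSet K)] (p : ℕ) [hp : Fact p.Prime]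
    (h : ¬ p ∣ (Subgroup.center K).index) :
    ∀ c ∈ commutator K, ∃ m : ℕ, ¬ p ∣ m ∧ c ^ m = 1 := by
  intro c hc
  refine ⟨Nat.card (commutator K), ?_, ?_⟩
  · intro hd
    exact h (hp.out.dvd_of_dvd_pow (hd.trans (Subgroup.card_commutator_dvd_index_center_pow K)))
  · have : (⟨c, hc⟩ : commutator K) ^ Nat.card (commutator K) = 1 := pow_card_eq_one'
    have h4 := congrArg Subtype.val this
    rw [Subgroup.coe_pow] at h4
    exact h4

lemma exists_fg {G : Type*} [Group G] (N : Subgroup G) (d : G) (hd : d ∈ ⁅N, N⁆) :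
    ∃ S : Finset G, (S : Set G) ⊆ N ∧
      d ∈ ⁅Subgroup.closure (S : Set G), Subgroup.closure (S : Set G)⁆ := by
  classical
  rw [Subgroup.commutator_def] at hd
  induction hd using Subgroup.closure_induction with
  | mem x hx =>
    obtain ⟨a, ha, b, hb, rfl⟩ := hx
    refine ⟨{a, b}, ?_, ?_⟩
    · intro y hy
      simp only [Finset.coe_insert, Finset.coe_singleton, Set.mem_insert_iff,
        Set.mem_singleton_iff] at hy
      rcases hy with rfl | rfl
      · exact ha
      · exact hb
    · exact Subgroup.commutator_mem_commutator (Subgroup.subset_closure (by simp))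
        (Subgroup.subset_closure (by simp))
  | one => exact ⟨∅, by simp, one_mem _⟩
  | mul x y _ _ hx hy =>
    obtain ⟨S, hS, hxS⟩ := hx
    obtain ⟨T, hT, hyT⟩ := hy
    refine ⟨S ∪ T, by rw [Finset.coe_union]; exact Set.union_subset hS hT, ?_⟩
    have h1 : Subgroup.closure (S : Set G) ≤ Subgroup.closure ((S ∪ T : Finset G) : Set G) :=
      Subgroup.closure_mono (by rw [Finset.coe_union]; exact Set.subset_union_left)
    have h2 : Subgroup.closure (T : Set G) ≤ Subgroup.closure ((S ∪ T : Finset G) : Set G) :=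
      Subgroup.closure_mono (by rw [Finset.coe_union]; exact Set.subset_union_right)
    exact mul_mem (Subgroup.commutator_mono h1 h1 hxS) (Subgroup.commutator_mono h2 h2 hyT)
  | inv x _ hx =>
    obtain ⟨S, hS, hxS⟩ := hx
    exact ⟨S, hS, inv_mem hxS⟩

/-- the abstract commutator subgroup -/
lemma pfree_comm {G : Type*} [Group G] (p : ℕ) [hp : Fact p.Prime] (N : Subgroup G)
    (hlf : LFin N (QuotientGroup.mk' (Subgroup.center G)))
    (h : PFree p (N : Set G) (Subgroup.center G : Set G)) :
    PFree p ((⁅N, N⁆ : Subgroup G) : Set G) {1} := by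
  intro d hd
  obtain ⟨S, hS, hdS⟩ := exists_fg N d hd
  set K := Subgroup.closure (S : Set G) with hK
  have hKN : K ≤ N := (Subgroup.closure_le N).2 hS
  have hf := hlf S hS
  have hfc : Finite (commutator K) :=
    Results.MP_6bba90_al.CentralQuotient.finite_commutator_of_finite_map K
      (by rw [Subgroup.coe_map]; exact hf)
  have hfs : Finite (commutatorSet K) := by
    have h1 : (commutatorSet K) ⊆ ((commutator K : Subgroup K) : Set K) := by
      rw [commutator_eq_closure]; exact Subgroup.subset_closure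
    exact Set.Finite.subset (Set.toFinite ((commutator K : Subgroup K) : Set K)) h1
  have h2 := index_center_le p K hf (fun g hg => h g (hKN hg))
  have h3 : ⁅K, K⁆ = (commutator K).map K.subtype := by
    rw [commutator_def, Subgroup.map_commutator, ← MonoidHom.range_eq_map, Subgroup.range_subtype]
  rw [h3] at hdS
  obtain ⟨c, hc, rfl⟩ := hdS
  obtain ⟨m, hm, hcm⟩ := schur_p p h2 c hc
  refine ⟨m, hm, ?_⟩
  rw [Set.mem_singleton_iff, ← map_pow, hcm, map_one]

end algebra

section top

variable {G : Type*} [Group G] [TopologicalSpace G] [IsTopologicalGroup G] [CompactSpace G]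
  [T2Space G] [TotallyDisconnectedSpace G]

/-- passing to the closure -/
lemma pfree_closure (p : ℕ) [hp : Fact p.Prime] (H : Subgroup G)
    (h : PFree p (H : Set G) {1})
    (hper : ∀ c ∈ H.topologicalClosure, IsOfFinOrder c) :
    PFree p (H.topologicalClosure : Set G) {1} := by
  intro c hc
  refine ⟨orderOf c, ?_, by rw [Set.mem_singleton_iff]; exact pow_orderOf_eq_one c⟩
  intro hdvd
  have hpos : 0 < orderOf c := (hper c hc).orderOf_pos
  obtain ⟨r, hr⟩ := hdvd
  have hr0 : r ≠ 0 := by rintro rfl; rw [mul_zero] at hr; omega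
  set d := c ^ r with hd
  have hdo : orderOf d = p := by
    rw [hd, orderOf_pow_of_dvd hr0 ⟨p, by rw [hr]; ring⟩, hr,
      Nat.mul_div_cancel _ (Nat.pos_of_ne_zero hr0)]
  have hd1 : d ≠ 1 := by
    intro h1
    rw [h1, orderOf_one] at hdo
    exact hp.out.one_lt.ne hdo
  have hdc : d ∈ H.topologicalClosure := pow_mem hc r
  obtain ⟨U, hU⟩ := ProfiniteGrp.exist_openNormalSubgroup_sub_open_nhds_of_one
    (G := G) (U := {d}ᶜ) isOpen_compl_singleton (by simpa using hd1.symm)
  have hdU : d ∉ U := fun hh => (hU hh) rfl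
  -- an element of `H` in `d U`
  have hopen : IsOpen ((fun x : G => d⁻¹ * x) ⁻¹' (U : Set G)) :=
    U.isOpen.preimage (continuous_const_mul _)
  have hmem : d ∈ (fun x : G => d⁻¹ * x) ⁻¹' (U : Set G) := by
    show d⁻¹ * d ∈ (U : Set G)
    rw [inv_mul_cancel]; exact one_mem U
  obtain ⟨y, hyU, hyH⟩ := (mem_closure_iff.1 (show d ∈ closure (H : Set G) from hdc)) _ hopen hmem
  obtain ⟨m, hm, hym⟩ := h y hyH
  let V : Subgroup G := U.toOpenSubgroup.toSubgroup
  have hVn : V.Normal := U.isNormal'
  let π : G →* G ⧸ V := QuotientGroup.mk' V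
  have h1 : π d = π y := by
    show (d : G ⧸ V) = (y : G ⧸ V)
    rw [QuotientGroup.eq]; exact hyU
  have h2 : (π d) ^ m = 1 := by
    rw [h1, ← map_pow, Set.mem_singleton_iff.1 hym, map_one]
  have h3 : (π d) ^ p = 1 := by
    rw [← map_pow, ← hdo, pow_orderOf_eq_one, map_one]
  have h4 : π d = 1 := by
    have hcop : Nat.gcd m p = 1 := (Nat.coprime_comm.1 ((Nat.Prime.coprime_iff_not_dvd hp.out).2 hm))
    have h5 := pow_gcd_eq_one.2 ⟨h2, h3⟩
    rwa [hcop, pow_one] at h5
  exact hdU ((QuotientGroup.eq_one_iff _).1 h4)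

end top

end Pool.Agent.Y80.PS
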