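import Mathlib
import Pool.Agent.Y80.PS.Alg
import Pool.Agent.Results.MP_6bba90_al.CentralQuotient

set_option autoImplicit false

/-! Closed normal subgroups of profinite groups which are locally finite modulo the centre. -/

namespace Pool.Agent.Y80.PS

open Topology Set
open scoped commutatorElement

section quot

variable {G : Type*} [Group G] [TopologicalSpace G] [IsTopologicalGroup G] [CompactSpace G]
  [T2Space G] [TotallyDisconnectedSpace G]

/-- The quotient of a profinite group by a closed normal subgroup is totally disconnected. -/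
lemma totDisc (Z : Subgroup G) [Z.Normal] (hZ : IsClosed (Z : Set G)) :
    TotallyDisconnectedSpace (G ⧸ Z) := by
  rw [totallyDisconnectedSpace_iff_connectedComponent_one]
  apply Set.eq_singleton_iff_unique_mem.2
  refine ⟨mem_connectedComponent, ?_⟩
  intro q hq
  obtain ⟨g, rfl⟩ := QuotientGroup.mk_surjective q
  by_contra hne
  have hg : g ∉ Z := fun h => hne ((QuotientGroup.eq_one_iff g).2 h)
  have h1 := ProfiniteGrp.closedSubgroup_eq_sInf_open (G := G) ⟨Z, hZ⟩
  have h2 : ∃ N : Subgroup G, IsOpen (N : Set G) ∧ Z ≤ N ∧ g ∉ N := by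
    by_contra hcon
    push Not at hcon
    apply hg
    have h3 : g ∈ sInf {N : Subgroup G | IsOpen (N : Set G) ∧
        ((⟨Z, hZ⟩ : ClosedSubgroup G) : Subgroup G) ≤ N} := by
      rw [Subgroup.mem_sInf]
      intro N hN
      exact hcon N hN.1 hN.2
    rw [← h1] at h3
    exact h3
  obtain ⟨N, hNo, hZN, hgN⟩ := h2
  -- the image of `N` is clopen
  have ho : IsOpen ((N.map (QuotientGroup.mk' Z) : Subgroup (G ⧸ Z)) : Set (G ⧸ Z)) := by
    rw [Subgroup.coe_map]
    exact QuotientGroup.isOpenMap_coe _ hNo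
  have hc : IsClosed ((N.map (QuotientGroup.mk' Z) : Subgroup (G ⧸ Z)) : Set (G ⧸ Z)) :=
    Subgroup.isClosed_of_isOpen _ ho
  have h4 := (IsClopen.connectedComponent_subset ⟨hc, ho⟩ (one_mem _)) hq
  obtain ⟨n, hn, hn'⟩ := h4
  have h5 : n⁻¹ * g ∈ Z := QuotientGroup.eq.1 hn'
  have h6 : g = n * (n⁻¹ * g) := by group
  rw [h6] at hgN
  exact hgN (mul_mem hn (hZN h5))

end quot

section rel

variable {G : Type*} [Group G] [TopologicalSpace G] [IsTopologicalGroup G] [CompactSpace G]
  [T2Space G] [TotallyDisconnectedSpace G]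

/-- Baire: a coset of an open subgroup of `N` on which a power map takes values in the centre
of `G`. -/
lemma step_one_rel (N : Subgroup G) (hN : IsClosed (N : Set G))
    (hp : ∀ g ∈ N, ∃ n : ℕ, 0 < n ∧ g ^ n ∈ Subgroup.center G) :
    ∃ (x : N) (n : ℕ) (U : OpenNormalSubgroup N), 0 < n ∧
      ∀ u ∈ U, (((x * u : N) : G)) ^ n ∈ Subgroup.center G := by
  have : CompactSpace N := isCompact_iff_compactSpace.1 hN.isCompact
  have hc : ∀ k : ℕ, IsClosed {g : N | (g : G) ^ (k + 1) ∈ Subgroup.center G} := fun k =>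
    Results.MP_6bba90_al.CentralQuotient.isClosed_center'.preimage
      ((continuous_pow (k + 1)).comp continuous_subtype_val)
  have hU : ⋃ k : ℕ, {g : N | (g : G) ^ (k + 1) ∈ Subgroup.center G} = Set.univ := by
    rw [Set.eq_univ_iff_forall]
    intro g
    obtain ⟨n, hn, h⟩ := hp g g.2
    rw [Set.mem_iUnion]
    refine ⟨n - 1, ?_⟩
    show (g : G) ^ (n - 1 + 1) ∈ Subgroup.center G
    rwa [Nat.sub_add_cancel hn]
  obtain ⟨k, x, hx⟩ := nonempty_interior_of_iUnion_of_closed hc hU
  have h1 : IsOpen ((fun u : N => x * u) ⁻¹'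
      interior {g : N | (g : G) ^ (k + 1) ∈ Subgroup.center G}) :=
    isOpen_interior.preimage (continuous_const_mul x)
  obtain ⟨U, hU'⟩ := ProfiniteGrp.exist_openNormalSubgroup_sub_open_nhds_of_one h1
    (by show x * 1 ∈ interior {g : N | (g : G) ^ (k + 1) ∈ Subgroup.center G}; rwa [mul_one])
  refine ⟨x, k + 1, U, Nat.succ_pos k, fun u hu => ?_⟩
  have : x * u ∈ {g : N | (g : G) ^ (k + 1) ∈ Subgroup.center G} := interior_subset (hU' hu)
  exact this

/-- The starting theorem for the group `N`. -/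
lemma start_rel (N : Subgroup G) (hN : IsClosed (N : Set G))
    (hlf : LFin N (QuotientGroup.mk' (Subgroup.center G))) :
    (∀ g ∈ (⁅N, N⁆ : Subgroup G).topologicalClosure, g ∈ N ∧ IsOfFinOrder g) ∧
    ∃ e : ℕ, 0 < e ∧ ∀ z ∈ (⁅N, N⁆ : Subgroup G).topologicalClosure,
      (∀ x ∈ N, x * z = z * x) → z ^ e = 1 := by
  classical
  have : CompactSpace N := isCompact_iff_compactSpace.1 hN.isCompact
  have hle : (⁅N, N⁆ : Subgroup G) ≤ N := by
    rw [Subgroup.commutator_le]
    intro a ha b hb
    exact mul_mem (mul_mem (mul_mem ha hb) (inv_mem ha)) (inv_mem hb)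
  have hDN : (⁅N, N⁆ : Subgroup G).topologicalClosure ≤ N :=
    Subgroup.topologicalClosure_minimal _ hle hN
  have hmem : ∀ g (hg : g ∈ (⁅N, N⁆ : Subgroup G).topologicalClosure),
      (⟨g, hDN hg⟩ : N) ∈ (commutator N).topologicalClosure := by
    intro g hg
    have h1 : closure ((commutator N : Subgroup N) : Set N) =
        N.subtype ⁻¹' closure (N.subtype '' ((commutator N : Subgroup N) : Set N)) :=
      (Topology.IsInducing.subtypeVal).closure_eq_preimage_closure_image _
    have h2 : N.subtype '' ((commutator N : Subgroup N) : Set N) = ((⁅N, N⁆ : Subgroup G) : Set G) := by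
      rw [← Subgroup.coe_map, commutator_def, Subgroup.map_commutator,
        ← MonoidHom.range_eq_map, Subgroup.range_subtype]
    show (⟨g, hDN hg⟩ : N) ∈ closure ((commutator N : Subgroup N) : Set N)
    rw [h1, h2]
    exact hg
  have hlf' : ∀ S : Finset (N ⧸ Subgroup.center N),
      (Subgroup.closure (S : Set (N ⧸ Subgroup.center N)) : Set (N ⧸ Subgroup.center N)).Finite := by
    have h1 : LFin (⊤ : Subgroup N)
        ((QuotientGroup.mk' (Subgroup.center G)).comp N.subtype) := by
      have := LFin.comap N.subtype (QuotientGroup.mk' (Subgroup.center G)) hlf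
      exact this.mono (by intro x _; exact x.2)
    have h2 : LFin (⊤ : Subgroup N) (QuotientGroup.mk' (Subgroup.center N)) := by
      refine h1.of_ker _ ?_
      intro x hx
      rw [MonoidHom.mem_ker] at hx
      have hx' : (x : G) ∈ Subgroup.center G := (QuotientGroup.eq_one_iff (x : G)).1 hx
      rw [QuotientGroup.ker_mk', Subgroup.mem_center_iff]
      intro g
      exact Subtype.ext (Subgroup.mem_center_iff.1 hx' g)
    have h3 : LFin (⊤ : Subgroup (N ⧸ Subgroup.center N)) (MonoidHom.id _) := by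
      have := LFin.map (QuotientGroup.mk' (Subgroup.center N))
        (MonoidHom.id (N ⧸ Subgroup.center N)) (H := ⊤) h2
      refine this.mono ?_
      intro q _
      obtain ⟨g, rfl⟩ := QuotientGroup.mk_surjective q
      exact ⟨g, Subgroup.mem_top g, rfl⟩
    intro S
    simpa using h3 S (by intro x _; exact Subgroup.mem_top x)
  obtain ⟨r1, e, he, r2⟩ := (Results.MP_6bba90_al.CentralQuotient.result (G := N)).1 hlf'
  refine ⟨fun g hg => ⟨hDN hg, ?_⟩, e, he, fun z hz hzc => ?_⟩
  · exact Submonoid.isOfFinOrder_coe.2 (r1 _ (hmem g hg))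
  · have h3 := r2 _ (hmem z hz) (by
      rw [Subgroup.mem_center_iff]
      intro x
      exact Subtype.ext (hzc x x.2))
    have h4 := congrArg Subtype.val h3
    simpa using h4

/-- Modulo the closed commutator subgroup of `N`, the subgroup `[N, G]` has finite exponent. -/
lemma exp_rel (N : Subgroup G) [hNn : N.Normal] (hN : IsClosed (N : Set G))
    (hp : ∀ g ∈ N, ∃ n : ℕ, 0 < n ∧ g ^ n ∈ Subgroup.center G) :
    ∃ M : ℕ, 0 < M ∧ ∀ c ∈ (⁅N, (⊤ : Subgroup G)⁆ : Subgroup G).topologicalClosure,
      c ∈ N ∧ c ^ M ∈ (⁅N, N⁆ : Subgroup G).topologicalClosure := by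
  classical
  have : CompactSpace N := isCompact_iff_compactSpace.1 hN.isCompact
  obtain ⟨x, n, U, hn, hU⟩ := step_one_rel N hN hp
  set D := (⁅N, N⁆ : Subgroup G).topologicalClosure with hD
  have hDn : D.Normal := Subgroup.is_normal_topologicalClosure _
  let π : G →* G ⧸ D := QuotientGroup.mk' D
  have hcomm : ∀ a ∈ N, ∀ b ∈ N, π a * π b = π b * π a := by
    intro a ha b hb
    rw [← map_mul, ← map_mul]
    show ((a * b : G) : G ⧸ D) = ((b * a : G) : G ⧸ D)
    rw [QuotientGroup.eq]
    apply Subgroup.le_topologicalClosure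
    have : (a * b)⁻¹ * (b * a) = ⁅b⁻¹, a⁻¹⁆ := by rw [commutatorElement_def]; group
    rw [this]
    exact Subgroup.commutator_mem_commutator (inv_mem hb) (inv_mem ha)
  -- the index of `U`
  have hUi : (U.toOpenSubgroup.toSubgroup : Subgroup N).FiniteIndex :=
    Subgroup.finiteIndex_of_finite_quotient
  set k := (U.toOpenSubgroup.toSubgroup : Subgroup N).index with hk
  have hk0 : 0 < k := Nat.pos_of_ne_zero hUi.index_ne_zero
  have hkU : ∀ g : N, g ^ k ∈ U := fun g =>
    Subgroup.pow_index_mem (U.toOpenSubgroup.toSubgroup : Subgroup N) g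
  -- `π (g ^ (k n))` commutes with everything
  have hcen : ∀ g ∈ N, ∀ h : G, π (g ^ (k * n)) * π h = π h * π (g ^ (k * n)) := by
    intro g hg h
    set v : N := (⟨g, hg⟩ : N) ^ k with hv
    have hvU : v ∈ U := hkU ⟨g, hg⟩
    have a1 : π ((x * v : N) : G) ^ n = π ((x : N) : G) ^ n * π (v : G) ^ n := by
      have e1 : π ((x * v : N) : G) = π (x : G) * π (v : G) := by
        rw [← map_mul]; rfl
      rw [e1]
      have hc : Commute (π (x : G)) (π (v : G)) := hcomm _ x.2 _ v.2
      exact hc.mul_pow n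
    have c1 := Subgroup.mem_center_iff.1 (hU v hvU)
    have c2 := Subgroup.mem_center_iff.1 (hU 1 (one_mem U))
    have b1 : Commute (π ((x * v : N) : G) ^ n) (π h) := by
      have := congrArg π (c1 h)
      rw [map_mul, map_mul, map_pow] at this
      exact this.symm
    have b2 : Commute (π (x : G) ^ n) (π h) := by
      have := congrArg π (c2 h)
      rw [mul_one, map_mul, map_mul, map_pow] at this
      exact this.symm
    have b3 : π (v : G) ^ n = (π (x : G) ^ n)⁻¹ * π ((x * v : N) : G) ^ n := by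
      rw [a1]; group
    have b4 : π (g ^ (k * n)) = π (v : G) ^ n := by
      rw [pow_mul, map_pow]
      rfl
    rw [b4, b3]
    exact (b2.inv_left.mul_left b1)
  refine ⟨k * n, Nat.mul_pos hk0 hn, ?_⟩
  -- the closed subgroup of the elements whose power is in `D`
  let E : Subgroup G :=
    { carrier := {c | c ∈ N ∧ c ^ (k * n) ∈ D}
      one_mem' := ⟨one_mem _, by rw [one_pow]; exact one_mem _⟩
      mul_mem' := by
        rintro a b ⟨ha, ha'⟩ ⟨hb, hb'⟩
        refine ⟨mul_mem ha hb, ?_⟩
        have h1 : π ((a * b) ^ (k * n)) = π (a ^ (k * n)) * π (b ^ (k * n)) := by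
          rw [map_pow, map_mul, map_pow, map_pow]
          exact (show Commute (π a) (π b) from hcomm a ha b hb).mul_pow _
        have h2 : π (a ^ (k * n)) = 1 := (QuotientGroup.eq_one_iff _).2 ha'
        have h3 : π (b ^ (k * n)) = 1 := (QuotientGroup.eq_one_iff _).2 hb'
        rw [h2, h3, mul_one] at h1
        exact (QuotientGroup.eq_one_iff _).1 h1
      inv_mem' := by
        rintro a ⟨ha, ha'⟩
        refine ⟨inv_mem ha, ?_⟩
        rw [inv_pow]
        exact inv_mem ha' }
  have hEc : IsClosed (E : Set G) := by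
    have h1 : IsClosed {c : G | c ^ (k * n) ∈ D} :=
      (Subgroup.isClosed_topologicalClosure _).preimage (continuous_pow (k * n))
    exact hN.inter h1
  have hEle : (⁅N, (⊤ : Subgroup G)⁆ : Subgroup G) ≤ E := by
    rw [Subgroup.commutator_le]
    intro a ha g _
    have hc : a * (g * a⁻¹ * g⁻¹) = ⁅a, g⁆ := by rw [commutatorElement_def]; group
    have hmem : g * a⁻¹ * g⁻¹ ∈ N := hNn.conj_mem _ (inv_mem ha) g
    rw [← hc]
    refine ⟨mul_mem ha hmem, ?_⟩
    have h1 : π ((a * (g * a⁻¹ * g⁻¹)) ^ (k * n)) = 1 := by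
      rw [map_pow, map_mul,
        (show Commute (π a) (π (g * a⁻¹ * g⁻¹)) from hcomm a ha _ hmem).mul_pow,
        ← map_pow, ← map_pow, conj_pow, map_mul, map_mul, inv_pow, map_inv]
      have h2 := hcen a ha g
      have h3 : Commute (π (a ^ (k * n)))⁻¹ (π g) := (show Commute _ _ from h2).inv_left
      rw [← h3.eq, map_inv, mul_assoc (π (a ^ (k * n)))⁻¹, mul_inv_cancel, mul_one,
        mul_inv_cancel]
    exact (QuotientGroup.eq_one_iff _).1 h1
  intro c hc
  exact (Subgroup.topologicalClosure_minimal _ hEle hEc) hc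

/-- The relative theorem: if `N` is a closed normal subgroup which is locally finite modulo the
centre of `G`, then the closed subgroup `[N, G]` is locally finite, and its central elements have
bounded order. -/
theorem rel_main (N : Subgroup G) [hNn : N.Normal] (hN : IsClosed (N : Set G))
    (hlf : LFin N (QuotientGroup.mk' (Subgroup.center G))) :
    LFin (⁅N, (⊤ : Subgroup G)⁆ : Subgroup G).topologicalClosure (MonoidHom.id G) ∧
    ∃ e : ℕ, 0 < e ∧ ∀ z ∈ (⁅N, (⊤ : Subgroup G)⁆ : Subgroup G).topologicalClosure,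
      z ∈ Subgroup.center G → z ^ e = 1 := by
  have hp : ∀ g ∈ N, ∃ n : ℕ, 0 < n ∧ g ^ n ∈ Subgroup.center G := by
    intro g hg
    obtain ⟨n, hn, h⟩ := hlf.exists_pow hg
    exact ⟨n, hn, (QuotientGroup.eq_one_iff _).1 h⟩
  obtain ⟨M, hM, hE⟩ := exp_rel N hN hp
  obtain ⟨s1, e, he, s2⟩ := start_rel N hN hlf
  have hfo : ∀ c ∈ (⁅N, (⊤ : Subgroup G)⁆ : Subgroup G).topologicalClosure, IsOfFinOrder c := by
    intro c hc
    have h1 := (s1 _ (hE c hc).2).2
    exact IsOfFinOrder.of_pow h1 hM.ne'
  refine ⟨?_, M * e, Nat.mul_pos hM he, ?_⟩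
  · refine LFin.ext (QuotientGroup.mk' (Subgroup.center G)) (hlf.mono fun c hc => (hE c hc).1) ?_
    refine lfin_abelian _ ?_ ?_
    · intro a ha b _
      have : a ∈ Subgroup.center G := by
        have := ha.2
        rwa [QuotientGroup.ker_mk'] at this
      exact (Subgroup.mem_center_iff.1 this b).symm
    · intro a ha
      exact hfo a ha.1
  · intro z hz hzc
    rw [pow_mul]
    apply s2 _ (hE z hz).2
    intro x _
    exact Subgroup.mem_center_iff.1 (pow_mem hzc M) x

end rel

end Pool.Agent.Y80.PS
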