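import Mathlib
import Pool.Agent.Y80.PS.Top
import Pool.Agent.Y80.PS.PPart

set_option autoImplicit false

/-! The theorem for all terms of the central series. -/

namespace Pool.Agent.Y80.PS

open Topology Set
open scoped commutatorElement

/-- `iter N n = [N, G, ..., G]` with `n` factors `G`. -/
def iter {G : Type*} [Group G] (N : Subgroup G) : ℕ → Subgroup G
  | 0 => N
  | n + 1 => ⁅iter N n, (⊤ : Subgroup G)⁆

lemma iter_map {G Q : Type*} [Group G] [Group Q] (f : G →* Q) (hf : Function.Surjective f)
    (N : Subgroup G) (n : ℕ) : (iter N n).map f = iter (N.map f) n := by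
  induction n with
  | zero => rfl
  | succ n ih =>
    show (⁅iter N n, (⊤ : Subgroup G)⁆).map f = ⁅iter (N.map f) n, (⊤ : Subgroup Q)⁆
    rw [Subgroup.map_commutator, ih, Subgroup.map_top_of_surjective f hf]

lemma iter_normal {G : Type*} [Group G] (N : Subgroup G) [hN : N.Normal] (n : ℕ) :
    (iter N n).Normal := by
  induction n with
  | zero => exact hN
  | succ n ih =>
    have := ih
    exact Subgroup.commutator_normal (iter N n) ⊤

section rel

variable {G : Type*} [Group G] [TopologicalSpace G] [IsTopologicalGroup G] [CompactSpace G]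
  [T2Space G] [TotallyDisconnectedSpace G]

theorem rel_p (p : ℕ) [hp : Fact p.Prime] (N : Subgroup G) [hNn : N.Normal]
    (hN : IsClosed (N : Set G))
    (hlf : LFin N (QuotientGroup.mk' (Subgroup.center G)))
    (h : PFree p (N : Set G) (Subgroup.center G : Set G)) :
    PFree p ((⁅N, (⊤ : Subgroup G)⁆ : Subgroup G).topologicalClosure : Set G) {1} := by
  classical
  obtain ⟨s1, -⟩ := start_rel N hN hlf
  have hDp := pfree_closure p _ (pfree_comm p N hlf h) (fun c hc => (s1 c hc).2)
  set D := (⁅N, N⁆ : Subgroup G).topologicalClosure with hD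
  have hDn : D.Normal := Subgroup.is_normal_topologicalClosure _
  let π : G →* G ⧸ D := QuotientGroup.mk' D
  have hcomm : ∀ a ∈ N, ∀ b ∈ N, π a * π b = π b * π a := by
    intro a ha b hb
    rw [← map_mul, ← map_mul]
    show ((a * b : G) : G ⧸ D) = ((b * a : G) : G ⧸ D)
    rw [QuotientGroup.eq]
    apply Subgroup.le_topologicalClosure
    have : (a * b)⁻¹ * (b * a) = ⁅b⁻¹, a⁻¹⁆ := by rw [commutatorElement_def]; group
    rw [this]
    exact Subgroup.commutator_mem_commutator (inv_mem hb) (inv_mem ha)
  let E : Subgroup G :=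
    { carrier := {c | c ∈ N ∧ ∃ m : ℕ, ¬ p ∣ m ∧ c ^ m ∈ D}
      one_mem' := ⟨one_mem _, 1, fun hd => hp.out.one_lt.ne' (Nat.dvd_one.1 hd),
        by rw [one_pow]; exact one_mem _⟩
      mul_mem' := by
        rintro a b ⟨ha, m, hm, ha'⟩ ⟨hb, k, hk, hb'⟩
        refine ⟨mul_mem ha hb, m * k, fun hd => ?_, ?_⟩
        · rcases (Nat.Prime.dvd_mul hp.out).1 hd with h1 | h1
          · exact hm h1
          · exact hk h1
        · have h1 : π ((a * b) ^ (m * k)) = π (a ^ m) ^ k * π (b ^ k) ^ m := by
            rw [map_pow, map_mul, map_pow, map_pow, ← pow_mul, ← pow_mul, mul_comm k m]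
            exact (show Commute (π a) (π b) from hcomm a ha b hb).mul_pow _
          have h2 : π (a ^ m) = 1 := (QuotientGroup.eq_one_iff _).2 ha'
          have h3 : π (b ^ k) = 1 := (QuotientGroup.eq_one_iff _).2 hb'
          rw [h2, h3, one_pow, one_pow, mul_one] at h1
          exact (QuotientGroup.eq_one_iff _).1 h1
      inv_mem' := by
        rintro a ⟨ha, m, hm, ha'⟩
        refine ⟨inv_mem ha, m, hm, ?_⟩
        rw [inv_pow]
        exact inv_mem ha' }
  have hEle : (⁅N, (⊤ : Subgroup G)⁆ : Subgroup G) ≤ E := by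
    rw [Subgroup.commutator_le]
    intro a ha g _
    obtain ⟨m, hm, ham⟩ := h a ha
    have hc : a * (g * a⁻¹ * g⁻¹) = ⁅a, g⁆ := by rw [commutatorElement_def]; group
    have hmem : g * a⁻¹ * g⁻¹ ∈ N := hNn.conj_mem _ (inv_mem ha) g
    rw [← hc]
    refine ⟨mul_mem ha hmem, m, hm, ?_⟩
    have h1 : π ((a * (g * a⁻¹ * g⁻¹)) ^ m) = 1 := by
      rw [map_pow, map_mul,
        (show Commute (π a) (π (g * a⁻¹ * g⁻¹)) from hcomm a ha _ hmem).mul_pow,
        ← map_pow, ← map_pow, conj_pow, inv_pow]
      have h2 : g * (a ^ m)⁻¹ = (a ^ m)⁻¹ * g := Subgroup.mem_center_iff.1 (inv_mem ham) g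
      rw [h2, mul_assoc, mul_inv_cancel, mul_one, map_inv, mul_inv_cancel]
    exact (QuotientGroup.eq_one_iff _).1 h1
  have habs : PFree p ((⁅N, (⊤ : Subgroup G)⁆ : Subgroup G) : Set G) {1} := by
    intro c hc
    obtain ⟨-, m, hm, hcm⟩ := hEle hc
    obtain ⟨k, hk, hck⟩ := hDp _ hcm
    refine ⟨m * k, fun hd => ?_, ?_⟩
    · rcases (Nat.Prime.dvd_mul hp.out).1 hd with h1 | h1
      · exact hm h1
      · exact hk h1
    · rw [pow_mul]; exact hck
  exact pfree_closure p _ habs (fun c hc => (rel_main N hN hlf).1.isOfFinOrder hc)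

end rel

universe u

theorem main (n : ℕ) : ∀ {G : Type u} [Group G] [TopologicalSpace G] [IsTopologicalGroup G]
    [CompactSpace G] [T2Space G] [TotallyDisconnectedSpace G] (N : Subgroup G) [N.Normal],
    IsClosed (N : Set G) → LFin N (QuotientGroup.mk' (Subgroup.upperCentralSeries G n)) →
    LFin (iter N n).topologicalClosure (MonoidHom.id G) ∧
    (∃ e : ℕ, 0 < e ∧ ∀ z ∈ (iter N n).topologicalClosure,
      z ∈ Subgroup.upperCentralSeries G n → z ^ e = 1) ∧
    ∀ p : ℕ, p.Prime → PFree p (N : Set G) (Subgroup.upperCentralSeries G n : Set G) →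
      PFree p ((iter N n).topologicalClosure : Set G) {1} := by
  induction n with
  | zero =>
    intro G _ _ _ _ _ _ N _ hN hlf
    have hcl : (iter N 0).topologicalClosure = N := by
      apply SetLike.coe_injective
      exact hN.closure_eq
    rw [hcl]
    refine ⟨hlf.of_ker _ ?_, ⟨1, one_pos, fun z _ hz => ?_⟩, fun p _ h => ?_⟩
    · rw [QuotientGroup.ker_mk', Subgroup.upperCentralSeries_zero]; exact bot_le
    · rw [Subgroup.upperCentralSeries_zero, Subgroup.mem_bot] at hz
      rw [hz, one_pow]
    · intro g hg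
      obtain ⟨m, hm, hgm⟩ := h g hg
      refine ⟨m, hm, ?_⟩
      rw [SetLike.mem_coe, Subgroup.upperCentralSeries_zero, Subgroup.mem_bot] at hgm
      exact hgm
  | succ n ih =>
    intro G _ _ _ _ _ _ N hNn hN hlf
    have hZ : IsClosed ((Subgroup.center G : Subgroup G) : Set G) :=
      Results.MP_6bba90_al.CentralQuotient.isClosed_center'
    have hTD : TotallyDisconnectedSpace (G ⧸ Subgroup.center G) := totDisc _ hZ
    have hT2 : T2Space (G ⧸ Subgroup.center G) := inferInstance
    let q : G →* G ⧸ Subgroup.center G := QuotientGroup.mk' (Subgroup.center G)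
    have hqs : Function.Surjective q := QuotientGroup.mk'_surjective _
    have hqc : Continuous q := QuotientGroup.continuous_mk
    have hcom := Subgroup.comap_upperCentralSeries_quotient_center (G := G) n
    have hmem : ∀ g : G, g ∈ Subgroup.upperCentralSeries G (n + 1) ↔
        q g ∈ Subgroup.upperCentralSeries (G ⧸ Subgroup.center G) n := by
      intro g
      show g ∈ Subgroup.upperCentralSeries G n.succ ↔ _
      rw [← hcom]; rfl
    have hNb : IsClosed ((N.map q : Subgroup _) : Set (G ⧸ Subgroup.center G)) := by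
      rw [Subgroup.coe_map]
      exact (hN.isCompact.image hqc).isClosed
    have hNbn : (N.map q).Normal := hNn.map q hqs
    have hlfb : LFin (N.map q) (QuotientGroup.mk'
        (Subgroup.upperCentralSeries (G ⧸ Subgroup.center G) n)) := by
      apply LFin.map
      refine hlf.of_ker _ ?_
      intro g hg
      rw [QuotientGroup.ker_mk'] at hg
      rw [MonoidHom.mem_ker]
      exact (QuotientGroup.eq_one_iff _).2 ((hmem g).1 hg)
    obtain ⟨i1, ⟨e1, he1, i2⟩, i3⟩ := ih (N.map q) hNb hlfb
    set Cb := (iter (N.map q) n).topologicalClosure with hCb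
    have hCbn : Cb.Normal := by
      have := iter_normal (N.map q) n
      exact Subgroup.is_normal_topologicalClosure _
    let B : Subgroup G := Cb.comap q
    have hBn : B.Normal := hCbn.comap q
    have hBc : IsClosed (B : Set G) :=
      (Subgroup.isClosed_topologicalClosure (iter (N.map q) n)).preimage hqc
    have hBl : LFin B (QuotientGroup.mk' (Subgroup.center G)) := by
      have := LFin.comap q (MonoidHom.id _) i1
      exact this
    obtain ⟨r1, e2, he2, r2⟩ := rel_main B hBc hBl
    have hNB : iter N n ≤ B := by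
      rw [← Subgroup.map_le_iff_le_comap, iter_map q hqs]
      exact Subgroup.le_topologicalClosure _
    have hcl : (iter N (n + 1)).topologicalClosure ≤
        (⁅B, (⊤ : Subgroup G)⁆ : Subgroup G).topologicalClosure :=
      Subgroup.topologicalClosure_mono (Subgroup.commutator_mono hNB le_rfl)
    have hclB : (⁅B, (⊤ : Subgroup G)⁆ : Subgroup G).topologicalClosure ≤ B :=
      Subgroup.topologicalClosure_minimal _ (Subgroup.commutator_le_left B ⊤) hBc
    refine ⟨r1.mono hcl, ⟨e1 * e2, Nat.mul_pos he1 he2, fun z hz hz' => ?_⟩, fun p hp h => ?_⟩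
    · have h1 : (q z) ^ e1 = 1 := i2 _ (hclB (hcl hz)) ((hmem z).1 hz')
      have h2 : z ^ e1 ∈ Subgroup.center G := by
        rw [← map_pow] at h1
        exact (QuotientGroup.eq_one_iff _).1 h1
      rw [pow_mul]
      exact r2 _ (pow_mem (hcl hz) e1) h2
    · have : Fact p.Prime := ⟨hp⟩
      have h1 : PFree p ((N.map q : Subgroup _) : Set (G ⧸ Subgroup.center G))
          (Subgroup.upperCentralSeries (G ⧸ Subgroup.center G) n : Set _) := by
        rintro _ ⟨g, hg, rfl⟩
        obtain ⟨m, hm, hgm⟩ := h g hg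
        refine ⟨m, hm, ?_⟩
        rw [← map_pow]
        exact (hmem _).1 hgm
      have h2 := i3 p hp h1
      have h3 : PFree p (B : Set G) (Subgroup.center G : Set G) := by
        intro b hb
        obtain ⟨m, hm, hbm⟩ := h2 (q b) hb
        refine ⟨m, hm, ?_⟩
        rw [← map_pow] at hbm
        exact (QuotientGroup.eq_one_iff _).1 hbm
      intro c hc
      exact rel_p p B hBc hBl h3 c (hcl hc)

end Pool.Agent.Y80.PS
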