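import Mathlib
import Pool.Agent.Y80.PS.Main

set_option autoImplicit false

/-! Closed terms of the upper central series, and the consequence of Zelmanov's theorem. -/

namespace Pool.Agent.Y80.PS

open Topology Set
open scoped commutatorElement

universe u

lemma isClosed_ucs (n : ℕ) : ∀ {G : Type u} [Group G] [TopologicalSpace G] [IsTopologicalGroup G]
    [CompactSpace G] [T2Space G] [TotallyDisconnectedSpace G],
    IsClosed ((Subgroup.upperCentralSeries G n : Subgroup G) : Set G) := by
  induction n with
  | zero =>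
    intro G _ _ _ _ _ _
    rw [Subgroup.upperCentralSeries_zero, Subgroup.coe_bot]
    exact isClosed_singleton
  | succ n ih =>
    intro G _ _ _ _ _ _
    have hZ : IsClosed ((Subgroup.center G : Subgroup G) : Set G) :=
      Results.MP_6bba90_al.CentralQuotient.isClosed_center'
    have hTD : TotallyDisconnectedSpace (G ⧸ Subgroup.center G) := totDisc _ hZ
    have hT2 : T2Space (G ⧸ Subgroup.center G) := inferInstance
    have h := Subgroup.comap_upperCentralSeries_quotient_center (G := G) n
    show IsClosed ((Subgroup.upperCentralSeries G n.succ : Subgroup G) : Set G)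
    rw [← h]
    exact (ih (G := G ⧸ Subgroup.center G)).preimage QuotientGroup.continuous_mk

/-- periodic sections are locally finite by the hypothesis (Zelmanov's theorem) -/
lemma lfin_of_zel
    (hz : ∀ (H : Type u) [Group H] [TopologicalSpace H] [IsTopologicalGroup H] [CompactSpace H]
      [T2Space H] [TotallyDisconnectedSpace H], (∀ h : H, IsOfFinOrder h) →
      ∀ S : Finset H, (Subgroup.closure (S : Set H) : Set H).Finite)
    {G : Type u} [Group G] [TopologicalSpace G] [IsTopologicalGroup G]
    [CompactSpace G] [T2Space G] [TotallyDisconnectedSpace G] (N : Subgroup G)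
    (hN : IsClosed (N : Set G)) (n : ℕ)
    (hp : ∀ g ∈ N, ∃ m : ℕ, 0 < m ∧ g ^ m ∈ Subgroup.upperCentralSeries G n) :
    LFin N (QuotientGroup.mk' (Subgroup.upperCentralSeries G n)) := by
  classical
  have hZ : IsClosed ((Subgroup.upperCentralSeries G n : Subgroup G) : Set G) := isClosed_ucs n
  have hTD : TotallyDisconnectedSpace (G ⧸ Subgroup.upperCentralSeries G n) := totDisc _ hZ
  have hT2 : T2Space (G ⧸ Subgroup.upperCentralSeries G n) := inferInstance
  let q : G →* G ⧸ Subgroup.upperCentralSeries G n :=
    QuotientGroup.mk' (Subgroup.upperCentralSeries G n)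
  have hqc : Continuous q := QuotientGroup.continuous_mk
  let H : Subgroup (G ⧸ Subgroup.upperCentralSeries G n) := N.map q
  have hHc : IsClosed (H : Set (G ⧸ Subgroup.upperCentralSeries G n)) := by
    show IsClosed ((N.map q : Subgroup _) : Set (G ⧸ Subgroup.upperCentralSeries G n))
    rw [Subgroup.coe_map]
    exact (hN.isCompact.image hqc).isClosed
  have hHcomp : CompactSpace H := isCompact_iff_compactSpace.1 hHc.isCompact
  have hper : ∀ h : H, IsOfFinOrder h := by
    rintro ⟨_, g, hg, rfl⟩
    obtain ⟨m, hm, hgm⟩ := hp g hg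
    rw [isOfFinOrder_iff_pow_eq_one]
    refine ⟨m, hm, Subtype.ext ?_⟩
    show (q g) ^ m = 1
    rw [← map_pow]
    exact (QuotientGroup.eq_one_iff _).2 hgm
  have h1 := hz H hper
  intro S hS
  let l : {x : G // x ∈ S} → H := fun s => ⟨q s.1, ⟨s.1, hS (Finset.mem_coe.2 s.2), rfl⟩⟩
  let T : Finset H := Finset.image l S.attach
  have h2 := h1 T
  have h3 : (Subgroup.closure (T : Set H)).map H.subtype = (Subgroup.closure (S : Set G)).map q := by
    rw [MonoidHom.map_closure, MonoidHom.map_closure]
    congr 1
    ext x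
    constructor
    · rintro ⟨t, ht, rfl⟩
      rw [Finset.mem_coe, Finset.mem_image] at ht
      obtain ⟨s, -, rfl⟩ := ht
      exact ⟨s.1, Finset.mem_coe.2 s.2, rfl⟩
    · rintro ⟨s, hs, rfl⟩
      refine ⟨⟨q s, s, hS hs, rfl⟩, ?_, rfl⟩
      rw [Finset.mem_coe, Finset.mem_image]
      exact ⟨⟨s, hs⟩, Finset.mem_attach _ _, rfl⟩
  have h4 : (q '' (Subgroup.closure (S : Set G) : Set G)) =
      H.subtype '' (Subgroup.closure (T : Set H) : Set H) := by
    rw [← Subgroup.coe_map, ← Subgroup.coe_map, h3]
  rw [show (QuotientGroup.mk' (Subgroup.upperCentralSeries G n) ''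
    (Subgroup.closure (S : Set G) : Set G)) = q '' (Subgroup.closure (S : Set G) : Set G) from rfl, h4]
  exact h2.image _

end Pool.Agent.Y80.PS
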